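import Pool.Agent.helper79.SX.Spec

set_option autoImplicit false

open Finset ArithmeticFunction

namespace Pool.Agent.SX

theorem CH6_log (u : ℝ) (hu : 1 ≤ u) :
    0 ≤ Real.log (2 ^ 18 * u) ∧ Real.log (2 ^ 18 * u) ≤ 12.477 * u ∧
      Real.log (2 ^ 18 * u) ^ 2 ≤ 155.7 * u := by
  have hu0 : 0 < u := by linarith
  have hs : 1 ≤ √u := by
    rw [← Real.sqrt_one]
    exact Real.sqrt_le_sqrt hu
  have hs2 : √u ^ 2 = u := Real.sq_sqrt hu0.le
  have h0 : 0 ≤ Real.log (2 ^ 18 * u) := Real.log_nonneg (by linarith)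
  have h1 : Real.log (2 ^ 18 * u) = 18 * Real.log 2 + 2 * Real.log √u := by
    rw [Real.log_mul (by norm_num) hu0.ne', Real.log_pow, Real.log_sqrt hu0.le]
    push_cast
    ring
  have h2 : Real.log √u ≤ √u - 1 := Real.log_le_sub_one_of_pos (by linarith)
  have h3 := Real.log_two_lt_d9
  have h4 : Real.log (2 ^ 18 * u) ≤ 12.477 * √u := by
    rw [h1]
    linarith
  have h5 : √u ≤ u := by nlinarith
  refine ⟨h0, by linarith, ?_⟩
  calc Real.log (2 ^ 18 * u) ^ 2 ≤ (12.477 * √u) ^ 2 := pow_le_pow_left₀ h0 h4 2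
    _ = 12.477 ^ 2 * u := by rw [mul_pow, hs2]
    _ ≤ 155.7 * u := by nlinarith

theorem CH6_root (u r a c : ℝ) (hu : 1 ≤ u) (hr0 : 0 < r) (hr : r ≤ 1) (hc : 0 ≤ c)
    (ha : (2 ^ 18 : ℝ) ^ r ≤ c) (h : a = (2 ^ 18 * u) ^ r) : 1 ≤ a ∧ a ≤ c * u := by
  have hu0 : 0 < u := by linarith
  rw [h]
  constructor
  · exact Real.one_le_rpow (by linarith) hr0.le
  · rw [Real.mul_rpow (by norm_num) hu0.le]
    have h1 : u ^ r ≤ u := by
      calc u ^ r ≤ u ^ (1 : ℝ) := Real.rpow_le_rpow_of_exponent_le hu hr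
        _ = u := Real.rpow_one u
    exact mul_le_mul ha h1 (Real.rpow_nonneg hu0.le _) hc

theorem CH6 (hCH1 : CH1_stmt) (hCH3 : CH3_stmt) (hCH4 : CH4_stmt) : CH6_stmt := by
  intro x hx
  obtain ⟨u, hu⟩ : ∃ u : ℝ, u = x / 2 ^ 18 := ⟨_, rfl⟩
  have hxu : x = 2 ^ 18 * u := by rw [hu]; ring
  have hu1 : 1 ≤ u := by
    rw [hu, le_div_iff₀ (by norm_num)]
    linarith
  obtain ⟨hL0, hL1, hL2⟩ := CH6_log u hu1
  rw [← hxu] at hL0 hL1 hL2
  have h1 : Chebyshev.psi x ≥ 0.9212 * x - 5 / 2 * Real.log x := by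
    have h := (hCH1 ⌊x⌋₊).1
    rw [← Chebyshev.psi_eq_psi_coe_floor] at h
    exact le_trans (hCH3 x (by linarith)).1 h
  have h2 := Chebyshev.psi_sub_theta_le_psi_add_psi_add_psi x
  rw [show (2⁻¹ : ℝ) = 1 / 2 by norm_num, show (3⁻¹ : ℝ) = 1 / 3 by norm_num,
    show (5⁻¹ : ℝ) = 1 / 5 by norm_num] at h2
  have r2 := CH6_root u (1 / 2) (x ^ (1 / 2 : ℝ)) 512 hu1 (by norm_num) (by norm_num) (by norm_num)
    (by
      rw [show (2 ^ 18 : ℝ) = (512 : ℝ) ^ (2 : ℝ) by norm_num, ← Real.rpow_mul (by norm_num)]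
      norm_num) (by rw [hxu])
  have r3 := CH6_root u (1 / 3) (x ^ (1 / 3 : ℝ)) 64 hu1 (by norm_num) (by norm_num) (by norm_num)
    (by
      rw [show (2 ^ 18 : ℝ) = (64 : ℝ) ^ (3 : ℝ) by norm_num, ← Real.rpow_mul (by norm_num)]
      norm_num) (by rw [hxu])
  have r5 := CH6_root u (1 / 5) (x ^ (1 / 5 : ℝ)) 13 hu1 (by norm_num) (by norm_num) (by norm_num)
    (by
      calc (2 ^ 18 : ℝ) ^ (1 / 5 : ℝ) ≤ ((13 : ℝ) ^ (5 : ℝ)) ^ (1 / 5 : ℝ) :=
            Real.rpow_le_rpow (by norm_num) (by norm_num) (by norm_num)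
        _ = 13 := by
            rw [← Real.rpow_mul (by norm_num)]
            norm_num) (by rw [hxu])
  have hx0 : 0 < x := by linarith
  have p2 := hCH4 _ r2.1
  have p3 := hCH4 _ r3.1
  have p5 := hCH4 _ r5.1
  rw [Real.log_rpow hx0] at p2 p3 p5
  have q2 := r2.2
  have q3 := r3.2
  have q5 := r5.2
  have e2 : (1 / 2 * Real.log x) ^ 2 = 1 / 4 * Real.log x ^ 2 := by ring
  have e3 : (1 / 3 * Real.log x) ^ 2 = 1 / 9 * Real.log x ^ 2 := by ring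
  have e5 : (1 / 5 * Real.log x) ^ 2 = 1 / 25 * Real.log x ^ 2 := by ring
  rw [e2] at p2
  rw [e3] at p3
  rw [e5] at p5
  have hx' : x = 262144 * u := by rw [hxu]; norm_num
  linarith

end Pool.Agent.SX
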